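import Mathlib
import Pool.Agent.R508.PairFamily

set_option autoImplicit false

/-!
# Divisibility among sums of consecutive primes

`S i = p_i + p_{i+1}`. There is an odd number `R` such that `S n` divides `S k` for infinitely many `k`,
for every `n` with `S n ≡ 2 (mod 4)` and `S n` coprime to `R`.

Proof. Otherwise there are, for every `K`, `K` exceptional numbers `n` such that the numbers `S n / 2` are odd,
pairwise coprime and coprime to a given number. We attach them to the pairs `i < j < k` of the indices of a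
tuple of `k` linear forms `Q x + b + D i`, two of which are simultaneously prime infinitely often
(Maynard-Tao), and choose `b + D i ≡ 1`, `b + D j ≡ -1` modulo the number `S n / 2` attached to the
pair, and the forms such that no other primes lie between their values. The sum of two consecutive primes
of the tuple is divisible by one of the numbers `S n`, infinitely often; a contradiction.
-/

namespace Pool.Agent.Results.MP_7a4080_nt.CoprimeToFixed

/-- `S i = p_i + p_{i+1}` for `i ≥ 1`, where `p_1 = 2, p_2 = 3, p_3 = 5, ...` are the primes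
(`Nat.nth Nat.Prime 0 = 2`). -/
noncomputable def S (i : ℕ) : ℕ := Nat.nth Nat.Prime (i - 1) + Nat.nth Nat.Prime i

/-- There is an odd `R` such that the set of the `n ≥ 1` with `gcd (S n) (4 R) = 2` is infinite and for each such
`n` there are infinitely many `k` with `S n ∣ S k`. -/
theorem result : ∃ R : ℕ, Odd R ∧ {n : ℕ | 1 ≤ n ∧ Nat.gcd (S n) (4 * R) = 2}.Infinite ∧
    ∀ n : ℕ, 1 ≤ n → Nat.gcd (S n) (4 * R) = 2 → {k : ℕ | S n ∣ S k}.Infinite := by
  by_contra hcon
  push Not at hcon
  -- nonvacuity
  have hinf : ∀ R : ℕ, Odd R → {n : ℕ | 1 ≤ n ∧ Nat.gcd (S n) (4 * R) = 2}.Infinite := by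
    intro R hR
    rw [Set.infinite_iff_exists_gt]
    intro N
    obtain ⟨n, h1, h2, ⟨x, hx⟩, _⟩ := Pool.Agent.R508.good_index 1 R le_rfl hR.pos (N + 1)
    refine ⟨n, ⟨h1, ?_⟩, by omega⟩
    have h3 : S n = 2 + 4 * R * x := hx
    rw [h3]
    have h4 : 2 + 4 * R * x = 2 + 4 * R * x := rfl
    have h5 : Nat.gcd (2 + 4 * R * x) (4 * R) = Nat.gcd 2 (4 * R) := by
      rw [Nat.gcd_add_mul_left_left]
    rw [h5]
    exact Nat.gcd_eq_left (by omega)
  obtain ⟨n, ⟨hn1, hn2⟩, hn3⟩ := Pool.Agent.R508.main_comb
    (fun n => 1 ≤ n ∧ ¬ {k : ℕ | S n ∣ S k}.Infinite) (by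
    intro R hR
    -- the odd part of `R`
    obtain ⟨v, R', hR', hRR⟩ := Nat.exists_eq_two_pow_mul_odd (n := R) (by omega)
    obtain ⟨n, h1, h2, h3⟩ := hcon R' hR' (hinf R' hR')
    refine ⟨n, ⟨h1, by simpa using h3⟩, S n / 2, ?_, ?_, ?_⟩
    · have h4 : 2 ∣ S n := by
        have := Nat.gcd_dvd_left (S n) (4 * R')
        rwa [h2] at this
      have h5 : Pool.Agent.R508.S n = S n := rfl
      omega
    · have h4 : 2 ∣ S n := by
        have := Nat.gcd_dvd_left (S n) (4 * R')
        rwa [h2] at this
      have h6 : 0 < Nat.nth Nat.Prime n := (Pool.Agent.R508.nth_prime n).pos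
      have h7 : 0 < S n := by
        unfold S
        omega
      omega
    · obtain ⟨h, hh⟩ : 2 ∣ S n := by
        have := Nat.gcd_dvd_left (S n) (4 * R')
        rwa [h2] at this
      have h4 : S n / 2 = h := by omega
      rw [h4]
      have h5 : Nat.gcd h (2 * R') = 1 := by
        have h6 : Nat.gcd (2 * h) (2 * (2 * R')) = 2 := by
          rw [← hh, show 2 * (2 * R') = 4 * R' by ring]
          exact h2
        rw [Nat.gcd_mul_left] at h6
        omega
      have h7 : Nat.Coprime h 2 := Nat.Coprime.coprime_dvd_right (dvd_mul_right 2 R') h5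
      have h8 : Nat.Coprime h R' := Nat.Coprime.coprime_dvd_right (dvd_mul_left R' 2) h5
      rw [hRR]
      exact Nat.Coprime.mul_right h7 (Nat.Coprime.mul_right (Nat.Coprime.pow_right v h7) h8))
  apply hn2
  rw [Set.infinite_iff_exists_gt]
  intro N
  obtain ⟨κ, h1, h2⟩ := hn3 (N + 1)
  exact ⟨κ, h2, by omega⟩

end Pool.Agent.Results.MP_7a4080_nt.CoprimeToFixed
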